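import Pool.Agent.W345.VO.Stm

/-!
# Project VO: the automorphism group is trivial
-/

set_option autoImplicit false

namespace Pool.Agent.W370.VO

open MvPolynomial
open Pool.Agent.W345.VO

theorem ee_ne (k : ℤ) : ee k ≠ 0 := by
  unfold ee
  rw [Ne, Finsupp.single_eq_zero]
  exact one_ne_zero

theorem sz_neg (ε : ℂ) (j : ℤ) (hj : j < 0) : sz ε j = 0 := by
  unfold sz
  rw [if_neg (not_le.mpr hj)]

theorem sz_zero (ε : ℂ) : sz ε 0 = 1 := by
  unfold sz
  rw [if_pos le_rfl]
  simp [ss_zero]

/-- comparing coefficients of `ee 0` and `ee 1` -/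
theorem coef (x y : ℂ) (h : x • ee 0 + y • ee 1 = 0) : x = 0 ∧ y = 0 := by
  unfold ee at h
  constructor
  · have h0 := DFunLike.congr_fun h 0
    rw [Finsupp.add_apply, Finsupp.smul_apply, Finsupp.smul_apply, Finsupp.single_eq_same,
      Finsupp.single_eq_of_ne (by decide), smul_zero, add_zero, Finsupp.zero_apply] at h0
    rcases smul_eq_zero.mp h0 with h | h
    · exact h
    · exact absurd h one_ne_zero
  · have h0 := DFunLike.congr_fun h 1
    rw [Finsupp.add_apply, Finsupp.smul_apply, Finsupp.smul_apply, Finsupp.single_eq_same,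
      Finsupp.single_eq_of_ne (by decide), smul_zero, zero_add, Finsupp.zero_apply] at h0
    rcases smul_eq_zero.mp h0 with h | h
    · exact h
    · exact absurd h one_ne_zero

theorem aut : S_HE → S_BAS → S_TH → S_TE → S_GEN → S_AL → S_OM01 → S_WT01 → S_AUT := by
  intro hHE hBAS _ hTE hGEN hAL hOM hWT A hA hAom g hg
  obtain ⟨hg1, hg2⟩ := hg
  rw [hAom] at hg2
  obtain ⟨hB1, hB2, hB3, hB4⟩ := hBAS
  obtain ⟨hW0, hW1, hW2, hWe, hWal, -⟩ := hWT
  obtain ⟨hone, hE1, hF1, hTY⟩ := id hA
  have hYal := hAL A.toVertexAlgebra hA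
  obtain ⟨hY0, hY1⟩ := hOM A.toVertexAlgebra hA
  -- the vacuum
  have g0 : g (ee 0) = ee 0 := by
    have h1 : ∀ w : VV, A.Y (g A.one) (-1) w = w := by
      intro w
      obtain ⟨v, rfl⟩ := g.surjective w
      rw [← hg1, A.one_left]
      simp
    have h2 := h1 A.one
    rw [A.one_right] at h2
    rw [← hone]
    exact h2
  have gT : ∀ v, g (TT v) = TT (g v) := by
    intro v
    have := hg1 om 0 v
    rw [hg2, hY0] at this
    exact this
  have gW : ∀ v, g (WW v) = WW (g v) := by
    intro v
    have := hg1 om 1 v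
    rw [hg2, hY1] at this
    exact this
  -- `ee 1`
  have hE10 : EE 1 (-1) (ee 0) = ee 1 := by
    rw [hB1]
    norm_num
    rw [sz_zero]
    rfl
  have hE00 : EE 1 0 (ee 0) = 0 := by
    rw [hB1]
    norm_num
    exact sz_neg _ _ (by norm_num)
  have hE11 : EE 1 (-1) (ee 1) = 0 := by
    rw [hB1]
    norm_num
    exact sz_neg _ _ (by norm_num)
  have hE01 : EE 1 0 (ee 1) = 0 := by
    rw [hB1]
    norm_num
    exact sz_neg _ _ (by norm_num)
  have hW1' : WW (ee 1) = 0 := by
    rw [hWe]
    norm_num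
  obtain ⟨x, t, hxt⟩ := hW0 (g (ee 1)) (by rw [← gW, hW1', map_zero])
  have hY00 : A.Y (ee 0) (-1) = LinearMap.id := by
    refine LinearMap.ext fun v => ?_
    rw [← hone, A.one_left]
    simp
  have hx : x = 0 := by
    have h1 := hg1 (ee 1) (-1) (ee 1)
    rw [hE1, hE11, map_zero, hxt] at h1
    simp only [map_add, map_smul, Pi.add_apply, Pi.smul_apply, LinearMap.add_apply,
      LinearMap.smul_apply, hY00, hE1, LinearMap.id_apply, hE10, hE11, smul_zero,
      add_zero] at h1
    have h2 : (x * x) • ee 0 + (2 * x * t) • ee 1 = 0 := by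
      rw [h1]
      module
    have h3 := (coef _ _ h2).1
    exact mul_self_eq_zero.mp h3
  rw [hx, zero_smul, zero_add] at hxt
  have ht : t ≠ 0 := by
    intro ht
    rw [ht, zero_smul] at hxt
    exact ee_ne 1 (g.injective (hxt.trans (map_zero g).symm))
  -- `al`
  obtain ⟨a, b, hab⟩ := hW1 (g al) (by rw [← gW, hWal])
  have hbT : (Finsupp.single 1 (X 0) : VV) = TT (ee 1) := by
    rw [hB2]
    norm_num
  rw [hbT] at hab
  have hh01 : hOp 0 (ee 1) = (2 : ℂ) • ee 1 := by
    rw [hB3]
    norm_num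
  have ha : a = 1 := by
    have h1 := hg1 al 0 (ee 1)
    rw [hYal, hh01, map_smul, hxt, hab] at h1
    simp only [map_add, map_smul, Pi.add_apply, Pi.smul_apply,
      LinearMap.smul_apply, hYal, hTY, hh01, Int.cast_zero, neg_zero, zero_smul, smul_zero,
      add_zero] at h1
    have h2 : (0 : ℂ) • ee 0 + (2 * t * (a - 1)) • ee 1 = 0 := by
      have h3 : (2 * t * (a - 1)) • ee 1 = a • t • (2 : ℂ) • ee 1 - (2 : ℂ) • t • ee 1 := by
        module
      rw [zero_smul, zero_add, h3, h1]
      module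
    have h4 := (coef _ _ h2).2
    have h5 : a - 1 = 0 := by
      rcases mul_eq_zero.mp h4 with h | h
      · exact absurd h (mul_ne_zero two_ne_zero ht)
      · exact h
    linear_combination h5
  have hal : al = hOp (-1) (ee 0) := by
    have := hOp_neg 0 0 1
    norm_num at this
    unfold ee
    rw [this]
    rfl
  have h1al : hOp 1 al = (2 : ℂ) • ee 0 := by
    have := hOp_pos 0 0 (X 0)
    norm_num at this
    unfold al ee
    rw [this, Finsupp.smul_single]
  have h1b : hOp 1 (TT (ee 1)) = (2 : ℂ) • ee 1 := by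
    rw [← hbT]
    have := hOp_pos 0 1 (X 0)
    norm_num at this
    unfold ee
    rw [this, Finsupp.smul_single]
  have hE0al : EE 1 0 al = (-2 : ℂ) • ee 1 := by
    have := hHE 1 (Or.inl rfl) (-1) 0 (ee 0)
    rw [hE00, map_zero, ← hal] at this
    norm_num at this
    rw [hE10] at this
    rw [neg_smul, ← this, neg_neg]
  have hE0b : EE 1 0 (TT (ee 1)) = 0 := by
    have := hTE 1 (Or.inl rfl) 0 (ee 1)
    rw [hE01, map_zero] at this
    norm_num at this
    exact this
  have hb : b = 0 := by
    have h1 := hg1 al 1 al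
    rw [hYal, h1al, map_smul, g0, hab, ha, one_smul] at h1
    simp only [map_add, map_smul, Pi.add_apply, Pi.smul_apply, LinearMap.add_apply,
      LinearMap.smul_apply, hYal, hTY, h1al, h1b, hE1, Int.cast_one, sub_self, hE0al,
      hE0b, smul_zero, add_zero] at h1
    have h2 : (0 : ℂ) • ee 0 + (4 * b) • ee 1 = 0 := by
      have h3 := sub_eq_zero.mpr h1.symm
      rw [← h3]
      module
    have h4 := (coef _ _ h2).2
    rcases mul_eq_zero.mp h4 with h | h
    · exact absurd h (by norm_num)
    · exact h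
  rw [ha, hb, one_smul, zero_smul, add_zero] at hab
  have gh : ∀ n v, g (hOp n v) = hOp n (g v) := by
    intro n v
    have := hg1 al n v
    rw [hYal, hab, hYal] at this
    exact this
  -- the conformal vector
  have hn1 : ∀ (k : ℤ) (p : PP), hOp (-1) (Finsupp.single k p) = Finsupp.single k (X 0 * p) := by
    intro k p
    have := hOp_neg 0 k p
    have e : (-((0 : ℕ) : ℤ) - 1) = -1 := by norm_num
    rw [e] at this
    exact this
  have hn2 : ∀ (k : ℤ) (p : PP), hOp (-2) (Finsupp.single k p) = Finsupp.single k (X 1 * p) := by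
    intro k p
    have := hOp_neg 1 k p
    have e : (-((1 : ℕ) : ℤ) - 1) = -2 := by norm_num
    rw [e] at this
    exact this
  have hom1 : om = ((1 / 4 : ℂ) • hOp (-1) al + (1 / 2 : ℂ) • hOp (-2) (ee 0)) +
      (hOp (-2) (ee 1) + hOp (-1) (hOp (-1) (ee 1))) := by
    unfold om al ee
    rw [hn1, hn2, hn2, hn1, hn1, Finsupp.smul_single, Finsupp.smul_single, ← Finsupp.single_add,
      ← Finsupp.single_add]
    congr 2
    · rw [MvPolynomial.smul_eq_C_mul, MvPolynomial.smul_eq_C_mul]
      ring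
    · ring
  have ht1 : t = 1 := by
    have h1 := hg2
    rw [hom1] at h1
    simp only [map_add, map_smul, gh, hab, g0, hxt] at h1
    have h2 := add_left_cancel h1
    have h3 : (t - 1) • (hOp (-2) (ee 1) + hOp (-1) (hOp (-1) (ee 1))) = 0 := by
      rw [sub_smul, one_smul, smul_add, h2, sub_self]
    rcases smul_eq_zero.mp h3 with h | h
    · linear_combination h
    · exfalso
      unfold ee at h
      rw [hn2, hn1, hn1, ← Finsupp.single_add, Finsupp.single_eq_zero] at h
      have h4 := congrArg (MvPolynomial.eval (fun _ => (1 : ℂ))) h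
      norm_num at h4
  rw [ht1, one_smul] at hxt
  -- `ee (-1)`
  obtain ⟨s, hs⟩ := hW2 (g (ee (-1)))
    (by rw [← gW, hWe, map_smul]; congr 1; norm_num)
    (by rw [← gh, hB3, map_smul]; congr 1; norm_num)
  have hE1m : EE 1 1 (ee (-1)) = ee 0 := by
    rw [hB1]
    norm_num
    rw [sz_zero]
    rfl
  have hs1 : s = 1 := by
    have h1 := hg1 (ee 1) 1 (ee (-1))
    rw [hE1, hE1m, g0, hxt, hs, map_smul, hE1, hE1m] at h1
    have h2 : (s - 1) • ee 0 = 0 := by
      rw [sub_smul, one_smul, ← h1, sub_self]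
    rcases smul_eq_zero.mp h2 with h | h
    · linear_combination h
    · exact absurd h (ee_ne 0)
  rw [hs1, one_smul] at hs
  -- fixed vectors
  have hS := hGEN (LinearMap.ker ((g : VV →ₗ[ℂ] VV) - LinearMap.id))
    (by rw [LinearMap.mem_ker, LinearMap.sub_apply, LinearMap.id_apply, LinearEquiv.coe_coe, g0,
          sub_self])
    (by
      intro n v hv
      rw [LinearMap.mem_ker, LinearMap.sub_apply, LinearMap.id_apply, LinearEquiv.coe_coe,
        sub_eq_zero] at hv ⊢
      rw [← hE1, hg1, hxt, hv])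
    (by
      intro n v hv
      rw [LinearMap.mem_ker, LinearMap.sub_apply, LinearMap.id_apply, LinearEquiv.coe_coe,
        sub_eq_zero] at hv ⊢
      rw [← hF1, hg1, hs, hv])
  refine LinearEquiv.ext fun v => ?_
  have hv : v ∈ LinearMap.ker ((g : VV →ₗ[ℂ] VV) - LinearMap.id) := by
    rw [hS]
    exact Submodule.mem_top
  rw [LinearMap.mem_ker, LinearMap.sub_apply, LinearMap.id_apply, LinearEquiv.coe_coe,
    sub_eq_zero] at hv
  rw [hv]
  rfl

end Pool.Agent.W370.VO
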